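import Pool.Agent.helper3.SP.SpecPP

/-!
# Project sp, module PP21: one of two tracks without common brick survives
-/

namespace TP

open DP MeasureTheory

theorem PP21_rc {c : V → Bool} {w v : V} (h : br v ≠ br w) (hc : c v = true) :
    rc c w false v = true := by
  unfold rc
  rw [if_neg h]
  exact hc

theorem PP21 : PP21_stmt := by
  intro c w R H H' T hH hH' hT hB hw
  have h1 : ∃ e : Bool, ∀ v ∈ T e, br v ≠ br w := by
    by_contra hcon
    push Not at hcon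
    obtain ⟨v, hv, hvw⟩ := hcon true
    obtain ⟨u, hu, huw⟩ := hcon false
    exact hB v hv u hu (hvw.trans huw.symm)
  obtain ⟨e, he⟩ := h1
  obtain ⟨hTe, ⟨h, hh1, hh2⟩, ⟨h', hh3, hh4⟩⟩ := hT e
  refine ⟨H ∪ T e ∪ H', ⟨?_, ?_⟩, fun v hv => Or.inl (Or.inl hv), fun v hv => Or.inr hv⟩
  · rintro v ((hv | hv) | hv)
    · exact ⟨(hH.1 v hv).1, PP21_rc (hw v (Or.inl hv)) (hH.1 v hv).2⟩
    · exact ⟨(hTe.1 v hv).1, PP21_rc (he v hv) (hTe.1 v hv).2⟩
    · exact ⟨(hH'.1 v hv).1, PP21_rc (hw v (Or.inr hv)) (hH'.1 v hv).2⟩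
  · have m1 : H ⊆ H ∪ T e ∪ H' := fun v hv => Or.inl (Or.inl hv)
    have m2 : T e ⊆ H ∪ T e ∪ H' := fun v hv => Or.inl (Or.inr hv)
    have m3 : H' ⊆ H ∪ T e ∪ H' := fun v hv => Or.inr hv
    have key : ∀ v ∈ H ∪ T e ∪ H', Con (H ∪ T e ∪ H') v h := by
      rintro v ((hv | hv) | hv)
      · exact (hH.2 v hv h hh1).mono m1
      · exact (hTe.2 v hv h hh2).mono m2
      · exact ((hH'.2 v hv h' hh4).mono m3).trans ((hTe.2 h' hh3 h hh2).mono m2)
    intro z hz z' hz'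
    exact (key z hz).trans (key z' hz').symm

end TP
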