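import Pool.Agent.helper2.SP.SpecTA

/-!
# Project sp, part TA, module TA11: distances of the spots
-/

namespace TP.TA

open DP MeasureTheory

theorem TA11_crX (s : Bool) (c : V → Bool) (x : V) (m n : ℕ) (u : V) :
    crX s c x (ci s m n) (ci (!s) m n) u ↔
      (u ∈ bd x (ci s m n) ∧ ∃ p ∈ bd x (ci (!s) m n), Conn c (c u) (ann x m n) u p) := by
  cases s
  · exact Iff.rfl
  · exact Iff.rfl

theorem TA11_cong {x : V} {N : ℕ} {u : V} {L L' : ℤ} (h : Lf x N u L) (h' : Lf x N u L') :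
    ∃ k : ℤ, L' = L + 8 * N * k := by
  obtain ⟨-, k, hk⟩ := h
  obtain ⟨-, k', hk'⟩ := h'
  exact ⟨k' - k, by rw [hk, hk']; ring⟩

theorem TA11_two {x : V} {N : ℕ} {u : V} {L L' : ℤ} (hN : 1 ≤ N) (h : Lf x N u L)
    (h' : Lf x N u L') (h1 : L ≤ L') (h2 : L' ≤ L + 8 * N) : L' = L ∨ L' = L + 8 * N := by
  obtain ⟨k, hk⟩ := TA11_cong h h'
  have hN' : (1 : ℤ) ≤ N := by exact_mod_cast hN
  have hk0 : 0 ≤ k := by
    by_contra hc
    have h3 : k ≤ -1 := by omega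
    have h4 : 8 * (N : ℤ) * k ≤ 8 * N * (-1) := mul_le_mul_of_nonneg_left h3 (by omega)
    omega
  have hk1 : k ≤ 1 := by
    by_contra hc
    have h3 : 2 ≤ k := by omega
    have h4 : 8 * (N : ℤ) * 2 ≤ 8 * N * k := mul_le_mul_of_nonneg_left h3 (by omega)
    omega
  have h5 : k = 0 ∨ k = 1 := by omega
  rcases h5 with rfl | rfl
  · left
    rw [hk]
    ring
  · right
    rw [hk]
    ring

theorem TA11_nxt (hCG : CG1_stmt) {x : V} {N : ℕ} {u v : V} {L : ℤ} (hN : 1 ≤ N)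
    (h : Lf x N u L) (h' : Lf x N v (L + 1)) : nxt x N u v := by
  obtain ⟨hu, k, hk⟩ := h
  obtain ⟨hv, k', hk'⟩ := h'
  obtain ⟨hpu, hpu'⟩ := (hCG x N hN).1 u hu
  obtain ⟨hpv, hpv'⟩ := (hCG x N hN).1 v hv
  have hN' : (1 : ℤ) ≤ N := by exact_mod_cast hN
  have h1 : pos x N v - pos x N u - 1 = 8 * N * (k - k') := by
    have : pos x N v + 8 * N * k' = pos x N u + 8 * N * k + 1 := by rw [← hk', ← hk]
    linear_combination this
  have hd1 : k - k' ≤ 0 := by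
    by_contra hc
    have h3 : 1 ≤ k - k' := by omega
    have h4 : 8 * (N : ℤ) * 1 ≤ 8 * N * (k - k') := mul_le_mul_of_nonneg_left h3 (by omega)
    omega
  have hd2 : -1 ≤ k - k' := by
    by_contra hc
    have h3 : k - k' ≤ -2 := by omega
    have h4 : 8 * (N : ℤ) * (k - k') ≤ 8 * N * (-2) := mul_le_mul_of_nonneg_left h3 (by omega)
    omega
  have h5 : k - k' = 0 ∨ k - k' = -1 := by omega
  refine ⟨hu, hv, ?_⟩
  rcases h5 with h6 | h6
  · left
    rw [h6, mul_zero] at h1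
    omega
  · right
    rw [h6] at h1
    omega

theorem TA11_nb (hCG : CG1_stmt) {x : V} {N : ℕ} {u v : V} {L M : ℤ} (hN : 1 ≤ N)
    (h : Lf x N u L) (h' : Lf x N v M) (hM : M = L - 1 ∨ M = L + 1) : nb x N u v := by
  rcases hM with rfl | rfl
  · right
    exact TA11_nxt hCG hN h' (by rw [sub_add_cancel]; exact h)
  · left
    exact TA11_nxt hCG hN h h'

/-- The distance of two points is at most the difference of their lifted positions. -/
theorem TA11_sd (hCG1 : CG1_stmt) (hCG : CG2_stmt) {x : V} {N : ℕ} {u v : V} {L M : ℤ}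
    (hN : 1 ≤ N) (h : Lf x N u L) (h' : Lf x N v M) (hLM : L ≤ M) : (sd u v : ℤ) ≤ M - L := by
  obtain ⟨hu, k, hk⟩ := h
  obtain ⟨hv, k', hk'⟩ := h'
  obtain ⟨hpu, hpu'⟩ := (hCG1 x N hN).1 u hu
  obtain ⟨hpv, hpv'⟩ := (hCG1 x N hN).1 v hv
  obtain ⟨h1, h2, -⟩ := hCG x N hN u hu v hv
  have hN' : (1 : ℤ) ≤ N := by exact_mod_cast hN
  have h3 : M - L = pos x N v - pos x N u + 8 * N * (k' - k) := by
    rw [hk, hk']
    ring
  rcases abs_cases (pos x N u - pos x N v) with ⟨h4, h5⟩ | ⟨h4, h5⟩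
  · rw [h4] at h1 h2
    by_cases h6 : k' - k ≤ 0
    · have h7 : 8 * (N : ℤ) * (k' - k) ≤ 8 * N * 0 := mul_le_mul_of_nonneg_left h6 (by omega)
      omega
    · have h8 : 1 ≤ k' - k := by omega
      have h7 : 8 * (N : ℤ) * 1 ≤ 8 * N * (k' - k) := mul_le_mul_of_nonneg_left h8 (by omega)
      omega
  · rw [h4] at h1 h2
    by_cases h6 : k' - k ≤ -1
    · have h7 : 8 * (N : ℤ) * (k' - k) ≤ 8 * N * (-1) := mul_le_mul_of_nonneg_left h6 (by omega)
      omega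
    · have h8 : 0 ≤ k' - k := by omega
      have h7 : 8 * (N : ℤ) * 0 ≤ 8 * N * (k' - k) := mul_le_mul_of_nonneg_left h8 (by omega)
      omega

/-- Half of the distance on the circle. -/
theorem TA11_half (hCG1 : CG1_stmt) (hCG : CG2_stmt) {x : V} {N : ℕ} {u v : V} {L M : ℤ}
    (hN : 1 ≤ N) (h : Lf x N u L) (h' : Lf x N v M) (hLM : L < M) (hLM' : M < L + 8 * N) :
    M - L ≤ 2 * (sd u v : ℤ) ∨ L + 8 * N - M ≤ 2 * (sd u v : ℤ) := by
  obtain ⟨hu, k, hk⟩ := h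
  obtain ⟨hv, k', hk'⟩ := h'
  obtain ⟨hpu, hpu'⟩ := (hCG1 x N hN).1 u hu
  obtain ⟨hpv, hpv'⟩ := (hCG1 x N hN).1 v hv
  obtain ⟨-, -, h2⟩ := hCG x N hN u hu v hv
  have hN' : (1 : ℤ) ≤ N := by exact_mod_cast hN
  have h3 : M - L = pos x N v - pos x N u + 8 * N * (k' - k) := by
    rw [hk, hk']
    ring
  have hd0 : 0 ≤ k' - k := by
    by_contra hc
    have h6 : k' - k ≤ -1 := by omega
    have h7 : 8 * (N : ℤ) * (k' - k) ≤ 8 * N * (-1) := mul_le_mul_of_nonneg_left h6 (by omega)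
    omega
  have hd1 : k' - k ≤ 1 := by
    by_contra hc
    have h6 : 2 ≤ k' - k := by omega
    have h7 : 8 * (N : ℤ) * 2 ≤ 8 * N * (k' - k) := mul_le_mul_of_nonneg_left h6 (by omega)
    omega
  have h8 : k' - k = 0 ∨ k' - k = 1 := by omega
  have h9 : |pos x N u - pos x N v| ≤ 2 * (sd u v : ℤ) ∨
      8 * N - |pos x N u - pos x N v| ≤ 2 * (sd u v : ℤ) := by
    rcases min_le_iff.1 h2 with h | h
    · exact Or.inl h
    · exact Or.inr h
  rcases h8 with h8 | h8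
  · rw [h8, mul_zero, add_zero] at h3
    have h10 : |pos x N u - pos x N v| = M - L := by
      rw [abs_sub_comm, ← h3]
      exact abs_of_pos (by omega)
    rw [h10] at h9
    rcases h9 with h | h
    · exact Or.inl h
    · right
      omega
  · rw [h8, mul_one] at h3
    have h10 : |pos x N u - pos x N v| = 8 * N - (M - L) := by
      have h11 : pos x N u - pos x N v = 8 * N - (M - L) := by omega
      rw [h11]
      exact abs_of_pos (by omega)
    rw [h10] at h9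
    rcases h9 with h | h
    · right
      omega
    · left
      omega

theorem TA11_ord {s : Bool} {c : V → Bool} {x : V} {m n : ℕ} {K K' : Set V} {y z : ℕ → V}
    {L M : ℕ → ℤ} (h : SD s c x m n K K' y z L M) :
    ∀ i < 6, (M i = L i - 1 ∨ M i = L i + 1) ∧ ∀ j < 6, i < j →
      (L i < L j ∧ L j < L i + 8 * (ci s m n : ℤ)) ∧
      (L i ≤ M j ∧ M j ≤ L i + 8 * (ci s m n : ℤ)) ∧
      (M i ≤ L j ∧ L j ≤ M i + 8 * (ci s m n : ℤ)) ∧
      (L i + M i < L j + M j ∧ L j + M j < L i + M i + 16 * (ci s m n : ℤ)) := by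
  have n0 := h.n0
  have n1 := h.n1
  have n2 := h.n2
  have n3 := h.n3
  have n4 := h.n4
  have n5 := h.n5
  have o1 := h.o1
  have o3 := h.o3
  have o4 := h.o4
  have o5 := h.o5
  intro i hi
  constructor
  · interval_cases i <;> omega
  · intro j hj hij
    interval_cases i <;> interval_cases j <;> omega

theorem TA11_same {s : Bool} {c : V → Bool} {x : V} {m n : ℕ} {K K' : Set V} {y z : ℕ → V}
    {L M : ℕ → ℤ} (hN : 1 ≤ ci s m n) (h : SD s c x m n K K' y z L M) {i j : ℕ} (hi : i < 6)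
    (hj : j < 6) (hij : i < j) :
    ¬ ((y i = y j ∧ z i = z j) ∨ (y i = z j ∧ z i = y j)) := by
  obtain ⟨a1, a2⟩ := TA11_ord h i hi
  obtain ⟨a3, -⟩ := TA11_ord h j hj
  obtain ⟨⟨b1, b2⟩, ⟨b3, b4⟩, ⟨b5, b6⟩, b7, b8⟩ := a2 j hj hij
  have hN' : (1 : ℤ) ≤ (ci s m n : ℤ) := by exact_mod_cast hN
  rintro (⟨e1, -⟩ | ⟨e1, e2⟩)
  · have h1 := h.py i hi
    have h2 := h.py j hj
    rw [e1] at h1
    rcases TA11_two hN h1 h2 b1.le b2.le with h3 | h3 <;> omega
  · have h1 := h.py i hi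
    have h2 := h.pz j hj
    rw [e1] at h1
    have h3 := h.pz i hi
    have h4 := h.py j hj
    rw [e2] at h3
    rcases TA11_two hN h1 h2 b3 b4 with h5 | h5 <;>
      rcases TA11_two hN h3 h4 b5 b6 with h6 | h6 <;> omega

/-- The edge `{u, v}` is a crossing interface edge. -/
def TA11_E (s : Bool) (c : V → Bool) (x : V) (m n : ℕ) (u v : V) : Prop :=
  c u ≠ c v ∧ crX s c x (ci s m n) (ci (!s) m n) u ∧ crX s c x (ci s m n) (ci (!s) m n) v

theorem TA11_E_symm {s : Bool} {c : V → Bool} {x : V} {m n : ℕ} {u v : V}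
    (h : TA11_E s c x m n u v) : TA11_E s c x m n v u := ⟨h.1.symm, h.2.2, h.2.1⟩

/-- An edge between a crossing connected set and its neighbours. -/
theorem TA11_edge {s : Bool} {c : V → Bool} {x : V} {m n : ℕ} {K : Set V} {k : Bool}
    (hK : K ⊆ ann x m n) (hc : ∀ v ∈ K, c v = k) (hcon : ∀ u ∈ K, ∀ v ∈ K, Con K u v)
    (hm : ∃ u ∈ K, u ∈ bd x m) (hn : ∃ u ∈ K, u ∈ bd x n)
    (hnb : ∀ v ∈ nbd (ann x m n) K, c v = !k) {u v : V} (hu : u ∈ K)
    (hv : v ∈ nbd (ann x m n) K) (hub : u ∈ bd x (ci s m n)) (hvb : v ∈ bd x (ci s m n))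
    (hp : ∃ p ∈ bd x (ci (!s) m n), Con (nbd (ann x m n) K) v p) : TA11_E s c x m n u v := by
  refine ⟨?_, ?_, ?_⟩
  · rw [hc u hu, hnb v hv]
    cases k <;> simp
  · rw [TA11_crX]
    refine ⟨hub, ?_⟩
    have h1 : ∃ p ∈ K, p ∈ bd x (ci (!s) m n) := by
      cases s
      · exact hn
      · exact hm
    obtain ⟨p, hp1, hp2⟩ := h1
    refine ⟨p, hp2, (hcon u hu p hp1).mono ?_⟩
    intro w hw
    exact ⟨hK hw, by rw [hc w hw, hc u hu]⟩
  · rw [TA11_crX]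
    refine ⟨hvb, ?_⟩
    obtain ⟨p, hp1, hp2⟩ := hp
    refine ⟨p, hp1, hp2.mono ?_⟩
    intro w hw
    exact ⟨hw.1, by rw [hnb w hw, hnb v hv]⟩

/-- Edges of `K` and of `K'` for the colouring `Th K c`. -/
theorem TA11_KK (hTA1 : TA1_stmt) (hTA2 : TA2_stmt) {s : Bool} {c : V → Bool} {x : V} {m n : ℕ}
    {K K' : Set V} (hBC : BC c) (hT : TC c x m n K K') :
    (∀ u v : V, u ∈ K → v ∈ nbd (ann x m n) K → u ∈ bd x (ci s m n) → v ∈ bd x (ci s m n) →
      (∃ p ∈ bd x (ci (!s) m n), Con (nbd (ann x m n) K) v p) →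
        TA11_E s (Th x m n K c) x m n u v) ∧
    (∀ u v : V, u ∈ K' → v ∈ nbd (ann x m n) K' → u ∈ bd x (ci s m n) → v ∈ bd x (ci s m n) →
      (∃ p ∈ bd x (ci (!s) m n), Con (nbd (ann x m n) K') v p) →
        TA11_E s (Th x m n K c) x m n u v) := by
  obtain ⟨hW, hW', -, -⟩ := id hT
  obtain ⟨k1, k2, k3, k4, k5, k6, -⟩ := hTA1.1 c x m n K hW
  obtain ⟨l1, -, l3, l4, l5, -, -⟩ := hTA1.1 c x m n K' hW'
  obtain ⟨-, -, h3⟩ := hTA2.1 c x m n K hBC
  obtain ⟨-, h5, -⟩ := h3 hW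
  obtain ⟨-, -, -, t4, t5, -⟩ := hTA2.2 c x m n K K' hBC hT
  constructor
  · intro u v hu hv hub hvb hp
    refine TA11_edge (k := false) k1 ?_ k3 k4 k5 ?_ hu hv hub hvb hp
    · intro w hw
      rw [h5 w (Or.inl hw), k2 w hw]
    · intro w hw
      rw [h5 w (Or.inr hw), k6 w hw]
      rfl
  · intro u v hu hv hub hvb hp
    refine TA11_edge (k := true) l1 t4 l3 l4 l5 ?_ hu hv hub hvb hp
    intro w hw
    rw [t5 w hw]
    rfl

/-- The additional edge. -/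
theorem TA11_ext {s : Bool} {c : V → Bool} {x : V} {m n : ℕ} {u v w : V}
    (h : Conn c false (ann x m n) w u) (hv : c v = true) (hvc : cx s c x m n v)
    (hw : crX s c x (ci s m n) (ci (!s) m n) w) (hub : u ∈ bd x (ci s m n)) :
    TA11_E s c x m n u v := by
  have hu : c u = false := h.colour_right
  have hw0 : c w = false := h.colour_left
  refine ⟨by rw [hu, hv]; simp, ?_, hvc⟩
  rw [TA11_crX] at hw ⊢
  obtain ⟨-, p, hp1, hp2⟩ := hw
  refine ⟨hub, p, hp1, ?_⟩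
  rw [hu]
  rw [hw0] at hp2
  exact h.symm.trans hp2

theorem TA11 (hTA1 : TA1_stmt) (hTA2 : TA2_stmt) (hCG1 : CG1_stmt) (hCG2 : CG2_stmt)
    (hDE : DE_stmt) : TA11_stmt := by
  intro s c x m n K K' y z L M r₂ r₃ hx hm hmn hBC hT hSD hr1 hr2 hr3 hb1 hb2
  have hT' : TC c x m n K' K := (hTA2.2 c x m n K K' hBC hT).1
  have hN : 1 ≤ ci s m n := by
    cases s
    · exact hm
    · exact hm.trans hmn.le
  have hN' : 1 ≤ ci (!s) m n := by
    cases s
    · exact hm.trans hmn.le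
    · exact hm
  have hgap : gap s (ci s m n) (ci (!s) m n) r₃ := by
    cases s
    · exact hr1
    · exact hr1
  obtain ⟨A, A'⟩ := TA11_KK (s := s) hTA1 hTA2 hBC hT
  obtain ⟨B, B'⟩ := TA11_KK (s := s) hTA1 hTA2 hBC hT'
  have py := fun i hi => (hSD.py i hi).1
  have pz := fun i hi => (hSD.pz i hi).1
  have E1 : ∀ i < 6, i ≠ 4 → TA11_E s (Th x m n K c) x m n (y i) (z i) := by
    intro i hi hi4
    have h2 := A' (y 2) (z 2) hSD.k2.1 hSD.k2.2.1 (py 2 (by norm_num)) (pz 2 (by norm_num))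
      hSD.k2.2.2
    interval_cases i
    · exact TA11_E_symm (A (z 0) (y 0) hSD.k0.1 hSD.k0.2.1 (pz 0 (by norm_num))
        (py 0 (by norm_num)) hSD.k0.2.2)
    · exact TA11_ext hSD.k1.1 hSD.k1.2.1 hSD.k1.2.2 h2.2.2 (py 1 (by norm_num))
    · exact h2
    · exact TA11_E_symm (A' (z 3) (y 3) hSD.k3.1 hSD.k3.2.1 (pz 3 (by norm_num))
        (py 3 (by norm_num)) hSD.k3.2.2)
    · exact absurd rfl hi4
    · exact A (y 5) (z 5) hSD.k5.1 hSD.k5.2.1 (py 5 (by norm_num)) (pz 5 (by norm_num))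
        hSD.k5.2.2
  have E2 : ∀ i < 6, i ≠ 1 → TA11_E s (Th x m n K' c) x m n (y i) (z i) := by
    intro i hi hi4
    have h2 := B' (y 5) (z 5) hSD.k5.1 hSD.k5.2.1 (py 5 (by norm_num)) (pz 5 (by norm_num))
      hSD.k5.2.2
    interval_cases i
    · exact TA11_E_symm (B' (z 0) (y 0) hSD.k0.1 hSD.k0.2.1 (pz 0 (by norm_num))
        (py 0 (by norm_num)) hSD.k0.2.2)
    · exact absurd rfl hi4
    · exact B (y 2) (z 2) hSD.k2.1 hSD.k2.2.1 (py 2 (by norm_num)) (pz 2 (by norm_num))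
        hSD.k2.2.2
    · exact TA11_E_symm (B (z 3) (y 3) hSD.k3.1 hSD.k3.2.1 (pz 3 (by norm_num))
        (py 3 (by norm_num)) hSD.k3.2.2)
    · exact TA11_ext hSD.k4.1 hSD.k4.2.1 hSD.k4.2.2 h2.2.2 (py 4 (by norm_num))
    · exact h2
  have hsd : ∀ u v : V, sd u v = sd v u := by
    intro u v
    unfold sd
    rw [show (u.1 - v.1).natAbs = (v.1 - u.1).natAbs by omega,
      show (u.2 - v.2).natAbs = (v.2 - u.2).natAbs by omega]
  have key : ∀ c' : V → Bool, ¬ Bad s c' x (ci s m n) (2 * r₂ + 14) r₃ →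
      ∀ i < 6, ∀ j < 6, i < j → TA11_E s c' x m n (y i) (z i) → TA11_E s c' x m n (y j) (z j) →
        2 * r₂ + 14 ≤ sd (y i) (y j) + 4 := by
    intro c' hb i hi j hj hij h1 h2
    exact hDE s c' x (ci s m n) (ci (!s) m n) (2 * r₂ + 14) r₃ hx hN' hgap (by omega) hr2 hr3 hb
      (y i) (z i) (y j) (z j)
      (TA11_nb hCG1 hN (hSD.py i hi) (hSD.pz i hi) (TA11_ord hSD i hi).1)
      (TA11_nb hCG1 hN (hSD.py j hj) (hSD.pz j hj) (TA11_ord hSD j hj).1)
      h1.1 h2.1 h1.2.1 h1.2.2 h2.2.1 h2.2.2 (TA11_same hN hSD hi hj hij)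
  have h14 : 2 * r₂ + 14 ≤ 2 * sd (y 1) (y 4) + 12 := by
    have d23 : 2 * r₂ + 14 ≤ sd (y 2) (y 3) + 4 :=
      key _ hb1 2 (by norm_num) 3 (by norm_num) (by norm_num) (E1 2 (by norm_num) (by norm_num))
        (E1 3 (by norm_num) (by norm_num))
    have d05 : 2 * r₂ + 14 ≤ sd (y 0) (y 5) + 4 :=
      key _ hb1 0 (by norm_num) 5 (by norm_num) (by norm_num) (E1 0 (by norm_num) (by norm_num))
        (E1 5 (by norm_num) (by norm_num))
    have o23 := (TA11_ord hSD 2 (by norm_num)).2 3 (by norm_num) (by norm_num)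
    have o05 := (TA11_ord hSD 0 (by norm_num)).2 5 (by norm_num) (by norm_num)
    have o14 := (TA11_ord hSD 1 (by norm_num)).2 4 (by norm_num) (by norm_num)
    have e23 := TA11_sd hCG1 hCG2 hN (hSD.py 2 (by norm_num)) (hSD.py 3 (by norm_num))
      o23.1.1.le
    have hL0 : Lf x (ci s m n) (y 0) (L 0 + 8 * (ci s m n : ℤ)) := by
      obtain ⟨a, k, hk⟩ := hSD.py 0 (by norm_num)
      exact ⟨a, k + 1, by rw [hk]; ring⟩
    have e05 := TA11_sd hCG1 hCG2 hN (hSD.py 5 (by norm_num)) hL0 o05.1.2.le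
    rw [hsd (y 5) (y 0)] at e05
    have n0 := hSD.n0
    have n2 := hSD.n2
    have n5 := hSD.n5
    have o1 := hSD.o1
    have o4 := hSD.o4
    have o5 := hSD.o5
    rcases TA11_half hCG1 hCG2 hN (hSD.py 1 (by norm_num)) (hSD.py 4 (by norm_num)) o14.1.1
      o14.1.2 with h | h
    · omega
    · omega
  have main : ∀ i < 6, ∀ j < 6, i < j → 2 * r₂ + 14 ≤ 2 * sd (y i) (y j) + 12 := by
    intro i hi j hj hij
    by_cases h1 : i ≠ 4 ∧ j ≠ 4
    · have := key _ hb1 i hi j hj hij (E1 i hi h1.1) (E1 j hj h1.2)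
      omega
    · by_cases h2 : i ≠ 1 ∧ j ≠ 1
      · have := key _ hb2 i hi j hj hij (E2 i hi h2.1) (E2 j hj h2.2)
        omega
      · have h3 : i = 1 ∧ j = 4 := by omega
        obtain ⟨rfl, rfl⟩ := h3
        exact h14
  intro i hi j hj hij
  rcases lt_or_gt_of_ne hij with h | h
  · exact main i hi j hj h
  · rw [hsd (y i) (y j)]
    exact main j hj i hi h

end TP.TA
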