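import Pool.Agent.helper31.SP.SpecTL

set_option autoImplicit false

namespace TP

theorem TL9 : TL9_stmt := by
  intro c₂ K hc hK
  have h2 : (1 : ℝ) < (2 : ℝ) ^ c₂ := Real.one_lt_rpow (by norm_num) hc
  have h3 : (0 : ℝ) < (2 : ℝ) ^ c₂ - 1 := by linarith
  have h4 : 0 < K / ((2 : ℝ) ^ c₂ - 1) := div_pos hK h3
  refine ⟨K + K / ((2 : ℝ) ^ c₂ - 1), by positivity, ?_⟩
  intro D i i₀ p₁ hstep h0 p hp
  induction p, hp using Nat.le_induction with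
  | base =>
    intro _
    refine h0.trans (mul_le_mul_of_nonneg_right (by linarith) (by positivity))
  | succ p hp ih =>
    intro hp1
    have h5 := ih (by omega)
    have h6 := hstep p hp (by omega)
    have h7 : (2 : ℝ) ^ (-(c₂ * ((i : ℝ) - ((p + 1 : ℕ) : ℝ)))) =
        (2 : ℝ) ^ c₂ * (2 : ℝ) ^ (-(c₂ * ((i : ℝ) - p))) := by
      rw [← Real.rpow_add (by norm_num)]
      congr 1
      push_cast
      ring
    rw [h7]
    have h8 : (0 : ℝ) < (2 : ℝ) ^ (-(c₂ * ((i : ℝ) - p))) := by positivity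
    set E := (2 : ℝ) ^ (-(c₂ * ((i : ℝ) - p)))
    have h9 : K / ((2 : ℝ) ^ c₂ - 1) * ((2 : ℝ) ^ c₂ - 1) = K := div_mul_cancel₀ _ h3.ne'
    have h10 : (K + K / ((2 : ℝ) ^ c₂ - 1)) * ((2 : ℝ) ^ c₂ * E) -
        ((K + K / ((2 : ℝ) ^ c₂ - 1)) * E + K * E) =
        (K * ((2 : ℝ) ^ c₂ - 1) + (K / ((2 : ℝ) ^ c₂ - 1) * ((2 : ℝ) ^ c₂ - 1) - K)) * E := by
      ring
    rw [h9, sub_self, add_zero] at h10
    have h11 : 0 ≤ K * ((2 : ℝ) ^ c₂ - 1) * E := by positivity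
    linarith

end TP
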